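import Pool.Agent.H34R.Dist
import Pool.Agent.R460.GH.Conv

/-!
# Sums of two distinct and almost equal odd primes in the residue classes of EVERY modulus `q ≤ x ^ (2 / 3 - ρ)`

For every modulus `q ≤ x ^ (2 / 3 - ρ)`, without any exceptional moduli, and every residue class `a` modulo `q`
with `gcd(a, q) ≤ (log x)^T`, all but at most `x / (q (log x)^U)` of the even integers `m ≤ x`, `m ≡ a (mod q)`, are
sums of two distinct odd primes `p < p'`, even with `p' - p ≤ H` for every `H` with `m / log ^ A m ≤ H ≤ m`, and the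
number of these representations is, up to the factor `1 ± ε`, the one which Hardy and Littlewood predict.

Definition used (in `Pool.Agent.H560R3.GB`): `sing m = 2 C₂ ∏_{p ∣ m, p > 2} (p - 1) / (p - 2)`, the singular series,
where `C₂ = ∏_{p > 2} (1 - 1 / (p - 1) ^ 2)` is the twin prime constant.

Proof: the theorem `R460/GH` of the starting files on the Goldbach numbers in the classes of all moduli up to
`x ^ (2 / 3 - ρ)`, in the form for an arbitrary consequence of the formula in windows.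
-/

set_option autoImplicit false

namespace Pool.Agent.Results.MP_61161c_nt.EveryModulus

open Finset
open Pool.Agent.H560R3.GB (sing)

/-- The number of the `p` such that `p` and `p' = m - p` are odd primes, `p < p'` and `p' - p ≤ H`. -/
def pairs (m H : ℕ) : ℕ :=
  ((range m).filter (fun p => p.Prime ∧ p ≠ 2 ∧ (m - p).Prime ∧ m - p ≠ 2 ∧ p < m - p ∧ m - p ≤ p + H)).card

/-- For every `H` with `m / log ^ A m ≤ H ≤ m` there are distinct odd primes `p < p'` with `p + p' = m` and
`p' - p ≤ H`, and the number of these pairs is `sing m * H / (2 log ^ 2 m)` up to a relative error of at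
most `ε`. -/
def Holds (ε : ℝ) (A m : ℕ) : Prop :=
  ∀ H : ℕ, H ≤ m → (m : ℝ) / Real.log m ^ A ≤ H →
    (∃ p p' : ℕ, p.Prime ∧ p'.Prime ∧ p ≠ 2 ∧ p' ≠ 2 ∧ p < p' ∧ p + p' = m ∧ p' - p ≤ H) ∧
    |(pairs m H : ℝ) - sing m * H / (2 * Real.log m ^ 2)| ≤ ε * (sing m * H / (2 * Real.log m ^ 2))

/-- The even integers `0 < m ≤ x` with `m ≡ a (mod q)` for which `Holds ε A m` is false. -/
def exceptional (ε : ℝ) (A : ℕ) (x : ℝ) (q : ℕ) (a : ℤ) : Set ℕ :=
  {m : ℕ | 0 < m ∧ (m : ℝ) ≤ x ∧ 2 ∣ m ∧ (m : ℤ) ≡ a [ZMOD q] ∧ ¬ Holds ε A m}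

/-- For all `ε, ρ > 0`, `A`, `U` and `T` and all sufficiently large real `x`: for EVERY integer
`1 ≤ q ≤ x ^ (2 / 3 - ρ)` and every integer `a` with `gcd(a, q) ≤ (log x)^T`, all but at most
`x / (q (log x)^U)` of the even integers `0 < m ≤ x`, `m ≡ a (mod q)`, have the following property: for every `H` with
`m / log ^ A m ≤ H ≤ m` the integer `m` is a sum of two distinct odd primes `p < p'` with `p' - p ≤ H`, and the number
of these representations is `sing m * H / (2 log ^ 2 m)`, up to a relative error of at most `ε`. -/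
theorem result (ε ρ : ℝ) (hε : 0 < ε) (hρ : 0 < ρ) (A U T : ℕ) :
    ∃ x₀ : ℝ, ∀ x : ℝ, x₀ ≤ x → ∀ q : ℕ, 1 ≤ q → (q : ℝ) ≤ x ^ (2 / 3 - ρ) →
      ∀ a : ℤ, (Int.gcd a q : ℝ) ≤ Real.log x ^ T →
        (exceptional ε A x q a).Finite ∧ ((exceptional ε A x q a).ncard : ℝ) ≤ x / (q * Real.log x ^ U) :=
  Pool.Agent.R460.GH.class_asymp (Holds ε A) (min ε (1 / 2) / 2) (by
    have : 0 < min ε (1 / 2) := lt_min hε (by norm_num)
    positivity) (A + 1) (Pool.Agent.H34R.Dist.holds_of A ε hε) ρ hρ U T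

end Pool.Agent.Results.MP_61161c_nt.EveryModulus
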